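import Mathlib

set_option autoImplicit false

open Complex Matrix
open scoped Matrix.Norms.L2Operator

namespace Pool.Agent.Results.MP_dba3a1_an.Counterexample

section
variable {A B : Type} [CStarAlgebra A] [CStarAlgebra B]

def IsProj (e : A) : Prop := e * e = e ∧ star e = e

def IsRann (M S : Set A) (e : A) : Prop :=
  e ∈ M ∧ IsProj e ∧ ∀ y ∈ M, (∀ x ∈ S, x * y = 0) ↔ ∃ z ∈ M, y = e * z

def IsAW (A : Type) [CStarAlgebra A] : Prop := ∀ S : Set A, ∃ e, IsRann Set.univ S e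

def PM (A : Type) [CStarAlgebra A] : Set A := Submonoid.closure {p : A | IsProj p}

def IsBaerMor (φ : A → B) : Prop :=
  (∀ x ∈ PM A, φ x ∈ PM B) ∧ (∀ x ∈ PM A, ∀ y ∈ PM A, φ (x * y) = φ x * φ y) ∧
    (∀ x ∈ PM A, φ (star x) = star (φ x)) ∧
    ∀ S ⊆ PM A, ∀ e, IsRann (PM A) S e → IsRann (PM B) (φ '' S) (φ e)

def Extends (φ : A → B) : Prop := ∃ f : A →⋆ₙₐ[ℂ] B, ∀ x ∈ PM A, f x = φ x

end

abbrev M2 := Matrix (Fin 2) (Fin 2) ℂ

theorem aw : IsAW M2 := by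
  intro S
  let T : M2 ≃⋆ₐ[ℂ] (EuclideanSpace ℂ (Fin 2) →L[ℂ] EuclideanSpace ℂ (Fin 2)) :=
    Matrix.toEuclideanCLM (n := Fin 2) (𝕜 := ℂ)
  let K : Submodule ℂ (EuclideanSpace ℂ (Fin 2)) := ⨅ x ∈ S, LinearMap.ker (T x).toLinearMap
  have hK : ∀ v, v ∈ K ↔ ∀ x ∈ S, T x v = 0 := fun v => by simp [K, Submodule.mem_iInf]
  have inj : ∀ a b : M2, T a = T b → a = b := fun a b h => EquivLike.injective T h
  refine ⟨T.symm K.starProjection, trivial, ⟨?_, ?_⟩, fun y _ => ⟨fun h => ⟨y, trivial, ?_⟩, ?_⟩⟩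
  · rw [← map_mul, K.isIdempotentElem_starProjection.eq]
  · apply inj
    rw [map_star T, T.apply_symm_apply, (isSelfAdjoint_starProjection K).star_eq]
  · apply inj
    rw [map_mul, T.apply_symm_apply]
    ext1 v
    refine (Submodule.starProjection_eq_self_iff.2 ((hK _).2 fun x hx => ?_)).symm
    have := congrArg (fun m => T m v) (h x hx)
    simpa using this
  · rintro ⟨z, -, rfl⟩ x hx
    apply inj
    rw [map_mul, map_mul, T.apply_symm_apply, map_zero]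
    ext1 v
    exact (hK _).1 (K.starProjection_apply_mem _) x hx

noncomputable def cj (x : M2) : M2 := x.map (starRingEnd ℂ)

theorem cj_mul (x y : M2) : cj (x * y) = cj x * cj y := Matrix.map_mul
theorem cj_star (x : M2) : cj (star x) = star (cj x) := by ext i j; simp [cj]
theorem cj_cj (x : M2) : cj (cj x) = x := by ext i j; simp [cj]
theorem cj_zero : cj 0 = 0 := by ext i j; simp [cj]

theorem cj_proj {e : M2} (h : IsProj e) : IsProj (cj e) :=
  ⟨by rw [← cj_mul, h.1], by rw [← cj_star, h.2]⟩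

theorem cj_mem {x : M2} (h : x ∈ PM M2) : cj x ∈ PM M2 := by
  induction h using Submonoid.closure_induction with
  | mem x hx => exact Submonoid.subset_closure (cj_proj hx)
  | one =>
    have : cj 1 = 1 := by simp [cj]
    rw [this]; exact Submonoid.one_mem _
  | mul x y _ _ hx hy => rw [cj_mul]; exact Submonoid.mul_mem _ hx hy

theorem baer : IsBaerMor cj := by
  refine ⟨fun x => cj_mem, fun x _ y _ => cj_mul x y, fun x _ => cj_star x, ?_⟩
  rintro S - e ⟨h1, h2, h3⟩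
  refine ⟨cj_mem h1, cj_proj h2, fun y hy => ⟨fun h => ?_, ?_⟩⟩
  · obtain ⟨z, hz, hz2⟩ := (h3 _ (cj_mem hy)).1 fun x hx => by
      rw [← cj_cj x, ← cj_mul, h _ ⟨x, hx, rfl⟩, cj_zero]
    exact ⟨cj z, cj_mem hz, by rw [← cj_mul, ← hz2, cj_cj]⟩
  · rintro ⟨z, hz, rfl⟩ _ ⟨x, hx, rfl⟩
    rw [← cj_cj z, ← cj_mul, ← cj_mul,
      (h3 _ (Submonoid.mul_mem _ h1 (cj_mem hz))).2 ⟨_, cj_mem hz, rfl⟩ x hx, cj_zero]

theorem result : ∃ (A B : Type) (_ : CStarAlgebra A) (_ : CStarAlgebra B) (φ : A → B),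
    IsAW A ∧ IsAW B ∧ IsBaerMor φ ∧ ¬ Extends φ := by
  refine ⟨M2, M2, inferInstance, inferInstance, cj, aw, aw, baer, ?_⟩
  rintro ⟨f, hf⟩
  have pm : ∀ e : M2, IsProj e → e ∈ PM M2 := fun e h => Submonoid.subset_closure h
  have h1 : (!![1, 0; 0, 0] : M2) ∈ PM M2 := pm _
    ⟨by ext i j; fin_cases i <;> fin_cases j <;> simp, by ext i j; fin_cases i <;> fin_cases j <;> simp⟩
  have h2 : (!![0, 0; 0, 1] : M2) ∈ PM M2 := pm _
    ⟨by ext i j; fin_cases i <;> fin_cases j <;> simp, by ext i j; fin_cases i <;> fin_cases j <;> simp⟩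
  have h3 : (!![1 / 2, 1 / 2; 1 / 2, 1 / 2] : M2) ∈ PM M2 := pm _
    ⟨by simp; norm_num, by ext i j; fin_cases i <;> fin_cases j <;> simp⟩
  have h4 : (!![1 / 2, -I / 2; I / 2, 1 / 2] : M2) ∈ PM M2 := pm _
    ⟨by
      ext i j; fin_cases i <;> fin_cases j <;> simp [Matrix.mul_apply, Fin.sum_univ_two] <;>
        ring_nf <;> simp <;> norm_num,
      by ext i j; fin_cases i <;> fin_cases j <;> simp [neg_div]⟩
  have h5 := Submonoid.mul_mem _ (Submonoid.mul_mem _ h1 h3) h2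
  have h6 := Submonoid.mul_mem _ (Submonoid.mul_mem _ h2 h3) h1
  have e : (!![1 / 2, -I / 2; I / 2, 1 / 2] : M2) = (1 / 2 : ℂ) • !![1, 0; 0, 0] +
      (1 / 2 : ℂ) • !![0, 0; 0, 1] +
      (-I) • (!![1, 0; 0, 0] * !![1 / 2, 1 / 2; 1 / 2, 1 / 2] * !![0, 0; 0, 1]) +
      I • (!![0, 0; 0, 1] * !![1 / 2, 1 / 2; 1 / 2, 1 / 2] * !![1, 0; 0, 0]) := by
    ext i j; fin_cases i <;> fin_cases j <;> simp [div_eq_mul_inv]
  have k := hf _ h4
  conv_lhs at k => rw [e]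
  rw [map_add, map_add, map_add, map_smul, map_smul, map_smul, map_smul, hf _ h1, hf _ h2,
    hf _ h5, hf _ h6] at k
  have := congrArg Complex.im (congrFun (congrFun k 1) 0)
  simp [cj, map_ofNat] at this
  norm_num at this

end Pool.Agent.Results.MP_dba3a1_an.Counterexample
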